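import Pool.Agent.H217.CF.Spec

set_option autoImplicit false

namespace Pool.Agent.H120.CF

open Pool.Agent.H217.CF Filter

lemma log_fact (s : ℕ) (hs : 1 ≤ s) :
    Real.log (s.factorial : ℝ) ≤ (s + 1) * Real.log s - s + 1 := by
  induction s, hs using Nat.le_induction with
  | base => simp
  | succ n hn ih =>
    have hn0 : (0 : ℝ) < n := by exact_mod_cast hn
    rw [Nat.factorial_succ]
    push_cast
    rw [Real.log_mul (by positivity) (by positivity)]
    have h1 : 1 ≤ (n + 1 : ℝ) * (Real.log (n + 1) - Real.log n) := by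
      have h2 := Real.one_sub_inv_le_log_of_pos (x := ((n : ℝ) + 1) / n) (by positivity)
      rw [Real.log_div (by positivity) hn0.ne'] at h2
      have h3 : 1 - (((n : ℝ) + 1) / n)⁻¹ = 1 / (n + 1) := by
        field_simp
        ring
      rw [h3, div_le_iff₀ (by positivity)] at h2
      linarith
    linarith

theorem asym : S_asym := by
  intro q hq α y hα hy hm δ hδ
  have hq2 : (2 : ℝ) ≤ q := by exact_mod_cast hq
  have hq0 : (0 : ℝ) < q := by linarith
  obtain ⟨e, he0, he1, he2⟩ : ∃ e : ℝ, 0 < e ∧ e ≤ 1 / 10 ∧ e ≤ δ / 8 :=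
    ⟨min (1 / 10) (δ / 8), by positivity, min_le_left _ _, min_le_right _ _⟩
  have hyq : 0 < y / q := by positivity
  have hE : 0 < Real.exp (y / q) - 1 := by linarith [Real.add_one_le_exp (y / q)]
  obtain ⟨F, hF⟩ : ∃ F : ℝ, F = 1 + q * (Real.exp (y / q) - 1) := ⟨_, rfl⟩
  have hF1 : 1 < F := by rw [hF]; nlinarith [mul_pos hq0 hE]
  have hF0 : 0 < F := by linarith
  have hlogF : 0 < Real.log F := Real.log_pos hF1
  obtain ⟨K, hK⟩ : ∃ K : ℝ, K = 1 + Real.log y - Real.log α := ⟨_, rfl⟩
  obtain ⟨m, hmd⟩ : ∃ m : ℝ, m = mm q α y := ⟨_, rfl⟩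
  rw [← hmd] at hm
  have hmK : m = α * K - Real.log F := by rw [hmd, hK, hF]; rfl
  have hKpos : 0 < K := by
    have h : 0 < α * K := by linarith
    exact (mul_pos_iff_of_pos_left hα).1 h
  have h12 : 0 < 1 - 2 * e := by linarith
  obtain ⟨η, hη⟩ : ∃ η : ℝ, η = e * m / y := ⟨_, rfl⟩
  have hη0 : 0 < η := by rw [hη]; positivity
  have hηy : η * y = e * m := by rw [hη]; field_simp
  obtain ⟨c0, hc0⟩ : ∃ c0 : ℝ, c0 = (1 + e) * Real.log (1 + e) - e := ⟨_, rfl⟩
  have hc0p : 0 < c0 := by
    have h1 : (1 + e)⁻¹ ≠ 1 := by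
      intro h
      rw [inv_eq_one] at h
      linarith
    have h2 := Real.log_lt_sub_one_of_pos (inv_pos.2 (by linarith : 0 < 1 + e)) h1
    rw [Real.log_inv] at h2
    have h3 := mul_lt_mul_of_pos_left h2 (by linarith : 0 < 1 + e)
    rw [mul_sub, mul_inv_cancel₀ (by linarith : 1 + e ≠ 0)] at h3
    rw [hc0]
    linarith
  have hlam0 : 0 < Real.log (1 + e) := Real.log_pos (by linarith)
  -- the eventual facts
  have Tk : Tendsto (fun k : ℕ => (k : ℝ)) atTop atTop := tendsto_natCast_atTop_atTop
  have T : Tendsto (fun k : ℕ => Real.log (k : ℝ)) atTop atTop := Real.tendsto_log_atTop.comp Tk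
  have Tx : Tendsto (fun k : ℕ => α * (k : ℝ) / q) atTop atTop :=
    (Tk.const_mul_atTop hα).atTop_div_const hq0
  have E0 := Tx.eventually (Real.isLittleO_log_id_atTop.bound
    (by positivity : 0 < e * m / (2 * α)))
  have E1 := Tk.eventually_ge_atTop (2 * (q * (1 + K)) / (e * m))
  have E2 := Tx.eventually_ge_atTop 2
  have E3 := T.eventually_ge_atTop ((e - Real.log (η / 8)) / (α / (2 * m) * c0))
  have E4 := T.eventually_ge_atTop (Real.log 2 / e)
  have E5 := T.eventually_ge_atTop (m / (e * α))
  have E6 := Tk.eventually_ge_atTop 1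
  obtain ⟨k₀, hk₀⟩ := Filter.eventually_atTop.1
    (E0.and (E1.and (E2.and (E3.and (E4.and (E5.and E6))))))
  refine ⟨k₀, fun k hk => ?_⟩
  obtain ⟨g0, g1, g2, g3, g4, g5, g6⟩ := hk₀ k hk
  have hk0 : (0 : ℝ) < k := by linarith
  obtain ⟨x, hx⟩ : ∃ x : ℝ, x = α * (k : ℝ) / q := ⟨_, rfl⟩
  rw [← hx] at g0 g2
  have hx0 : 0 < x := by linarith
  obtain ⟨s, hsd⟩ : ∃ s : ℕ, s = ⌊x⌋₊ := ⟨_, rfl⟩
  have hs1 : (s : ℝ) ≤ x := by rw [hsd]; exact Nat.floor_le hx0.le
  have hs2 : x < s + 1 := by rw [hsd]; exact Nat.lt_floor_add_one x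
  have hs3 : (1 : ℝ) < s := by linarith
  have hs0 : (0 : ℝ) < s := by linarith
  have hsN : 1 ≤ s := by
    have : (1 : ℝ) ≤ s := hs3.le
    exact_mod_cast this
  have hqx : q * x = α * k := by rw [hx]; field_simp
  obtain ⟨z, hz⟩ : ∃ z : ℝ, z = k * y / q := ⟨_, rfl⟩
  have hz0 : 0 < z := by rw [hz]; positivity
  have hzk : z / k = y / q := by rw [hz]; field_simp
  have hqz : q * z = k * y := by rw [hz]; field_simp
  have hlogz : Real.log z = Real.log x + Real.log y - Real.log α := by
    have h1 : z = x * y / α := by rw [hz, hx]; field_simp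
    rw [h1, Real.log_div (by positivity) hα.ne', Real.log_mul hx0.ne' hy.ne']
  have hlogk : 0 < Real.log (k + 1) := Real.log_pos (by linarith)
  have hlogkk : Real.log k ≤ Real.log (k + 1) := Real.log_le_log hk0 (by linarith)
  obtain ⟨d, hd⟩ : ∃ d : ℝ, d = (1 + e) * (q * s) * Real.log (k + 1) / ((1 - 2 * e) * m * k) :=
    ⟨_, rfl⟩
  have hd0 : 0 < d := by rw [hd]; positivity
  refine ⟨s, ⌈(1 + e) * d⌉₊, z, η, Real.exp (-((1 - 2 * e) * m * k)), d, Real.log (1 + e),
    hsN, hz0, hη0, hlam0, hd0, Real.exp_pos _, ?_, ?_, ?_, ?_, ?_⟩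
  · rw [Real.exp_lt_one_iff]
    have : 0 < (1 - 2 * e) * m * k := by positivity
    linarith
  · rw [hzk, ← hF]
    have hfac : (0 : ℝ) < s.factorial := by exact_mod_cast Nat.factorial_pos s
    have hpos : 0 < ((s.factorial : ℝ) / z ^ s) ^ q * Real.exp (q * η * z) * F ^ k := by positivity
    refine (Real.log_le_iff_le_exp hpos).1 ?_
    rw [Real.log_mul (by positivity) (by positivity), Real.log_mul (by positivity) (by positivity),
      Real.log_pow, Real.log_pow, Real.log_exp, Real.log_div hfac.ne' (by positivity),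
      Real.log_pow, hlogz]
    have h1 := log_fact s hsN
    have h2 : Real.log s ≤ Real.log x := Real.log_le_log hs0 hs1
    have h3 : ((s : ℝ) + 1) * Real.log s ≤ (s + 1) * Real.log x :=
      mul_le_mul_of_nonneg_left h2 (by linarith)
    have h4 : Real.log (s.factorial : ℝ) - s * (Real.log x + Real.log y - Real.log α) ≤
        Real.log x + 1 - s * K := by
      rw [hK]
      linarith
    have h5 : (x - 1) * K ≤ s * K := mul_le_mul_of_nonneg_right (by linarith) hKpos.le
    have h6 : q * (Real.log (s.factorial : ℝ) - s * (Real.log x + Real.log y - Real.log α)) ≤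
        q * (Real.log x + 1 - (x - 1) * K) := mul_le_mul_of_nonneg_left (by linarith) hq0.le
    have h7 : Real.log x ≤ e * m / (2 * α) * x := by
      have h8 := (le_abs_self _).trans g0
      rw [Real.norm_eq_abs, id, abs_of_pos hx0] at h8
      exact h8
    have h9 : q * Real.log x ≤ e * m * k / 2 := by
      have h10 := mul_le_mul_of_nonneg_left h7 hq0.le
      have h11 : q * (e * m / (2 * α) * x) = e * m * k / 2 := by
        have : q * (e * m / (2 * α) * x) = e * m / (2 * α) * (q * x) := by ring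
        rw [this, hqx]
        field_simp
      rw [h11] at h10
      exact h10
    have h12' : q * (1 + K) ≤ e * m * k / 2 := by
      rw [div_le_iff₀ (by positivity)] at g1
      linarith
    have h13 : q * η * z = e * m * k := by
      have : q * η * z = η * (q * z) := by ring
      rw [this, hqz]
      have : η * (k * y) = (η * y) * k := by ring
      rw [this, hηy]
    have h14 : q * ((x - 1) * K) = α * k * K - q * K := by
      have : q * ((x - 1) * K) = (q * x) * K - q * K := by ring
      rw [this, hqx]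
    rw [h13]
    have h15 : (k : ℝ) * Real.log F = k * (α * K) - k * m := by rw [hmK]; ring
    rw [h15]
    have h16 : q * (Real.log x + 1 - (x - 1) * K) = q * Real.log x + q - q * ((x - 1) * K) := by
      ring
    rw [h16, h14] at h6
    linarith
  · rw [Real.log_exp]
    have h1 : d / (q * s) * -((1 - 2 * e) * m * k) = -((1 + e) * Real.log (k + 1)) := by
      have h12n := h12.ne'
      rw [hd]
      generalize 1 - 2 * e = r at h12n ⊢
      field_simp
    rw [h1]
    have := mul_pos he0 hlogk
    linarith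
  · have hDge : (1 + e) * d ≤ (⌈(1 + e) * d⌉₊ : ℝ) := Nat.le_ceil _
    rw [Real.exp_log (by linarith)]
    rw [← Real.le_log_iff_exp_le (by positivity)]
    have h1 : Real.log (1 + e) * ((1 + e) * d) ≤ Real.log (1 + e) * (⌈(1 + e) * d⌉₊ : ℝ) :=
      mul_le_mul_of_nonneg_left hDge hlam0.le
    have h2 : α / (2 * m) * Real.log (k + 1) ≤ d := by
      rw [hd, le_div_iff₀ (by positivity)]
      have h3 : α * k / 2 ≤ q * s := by
        have : q * (x / 2) ≤ q * s := mul_le_mul_of_nonneg_left (by linarith) hq0.le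
        have h4 : q * (x / 2) = α * k / 2 := by
          have : q * (x / 2) = q * x / 2 := by ring
          rw [this, hqx]
        linarith
      have h5 : α / (2 * m) * Real.log (k + 1) * ((1 - 2 * e) * m * k) =
          (1 - 2 * e) * (α * k / 2) * Real.log (k + 1) := by
        field_simp
      rw [h5]
      refine mul_le_mul_of_nonneg_right ?_ hlogk.le
      exact mul_le_mul (by linarith) h3 (by positivity) (by linarith)
    have h6 : α / (2 * m) * Real.log k ≤ d :=
      (mul_le_mul_of_nonneg_left hlogkk (by positivity)).trans h2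
    have h7 : e - Real.log (η / 8) ≤ Real.log k * (α / (2 * m) * c0) := by
      rw [div_le_iff₀ (by positivity)] at g3
      exact g3
    have h8 : Real.log k * (α / (2 * m) * c0) ≤ d * c0 := by
      have := mul_le_mul_of_nonneg_right h6 hc0p.le
      linarith
    rw [hc0] at h8 h7
    linarith
  · have hDlt : (⌈(1 + e) * d⌉₊ : ℝ) < (1 + e) * d + 1 := Nat.ceil_lt_add_one (by positivity)
    have hlogk2 : Real.log (k + 1) ≤ (1 + e) * Real.log k := by
      have h1 : Real.log (k + 1) ≤ Real.log (2 * k) := Real.log_le_log (by linarith) (by linarith)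
      rw [Real.log_mul (by norm_num) hk0.ne'] at h1
      rw [div_le_iff₀ he0] at g4
      linarith
    have hL0 : 0 < Real.log k := by
      have : 0 < m / (e * α) := by positivity
      linarith
    have h5 : m ≤ e * α * Real.log k := by
      rw [div_le_iff₀ (by positivity)] at g5
      linarith
    have hqs : q * s ≤ α * k := by
      rw [← hqx]
      exact mul_le_mul_of_nonneg_left hs1 hq0.le
    have hdle : (1 - 2 * e) * m * d ≤ (1 + e) ^ 2 * α * Real.log k := by
      have h1 : (1 - 2 * e) * m * d = (1 + e) * Real.log (k + 1) * ((q * s) / k) := by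
        have h12n := h12.ne'
        rw [hd]
        generalize 1 - 2 * e = r at h12n ⊢
        field_simp
      have h2 : q * s / (k : ℝ) ≤ α := by
        rw [div_le_iff₀ hk0]
        exact hqs
      rw [h1]
      calc (1 + e) * Real.log (k + 1) * ((q * s) / k) ≤
          (1 + e) * ((1 + e) * Real.log k) * α := by
            refine mul_le_mul (mul_le_mul_of_nonneg_left hlogk2 (by linarith)) h2
              (by positivity) (by positivity)
        _ = (1 + e) ^ 2 * α * Real.log k := by ring
    have hDle : m * (⌈(1 + e) * d⌉₊ : ℝ) ≤ (1 + δ) * α * Real.log k := by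
      have h1 : m * (⌈(1 + e) * d⌉₊ : ℝ) ≤ m * ((1 + e) * d + 1) :=
        mul_le_mul_of_nonneg_left hDlt.le hm.le
      have h2 : (1 - 2 * e) * (m * ((1 + e) * d + 1)) ≤
          (1 - 2 * e) * ((1 + δ) * α * Real.log k) := by
        have h3 := mul_le_mul_of_nonneg_left hdle (by linarith : 0 ≤ 1 + e)
        have h4 := mul_le_mul_of_nonneg_left h5 h12.le
        have h6 : (1 + e) ^ 3 + (1 - 2 * e) * e ≤ (1 - 2 * e) * (1 + δ) := by
          have h7 : (1 - 2 * e) * (1 + 8 * e) ≤ (1 - 2 * e) * (1 + δ) :=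
            mul_le_mul_of_nonneg_left (by linarith) h12.le
          nlinarith [mul_nonneg he0.le (by linarith : 0 ≤ 1 / 10 - e),
            mul_nonneg (mul_nonneg he0.le he0.le) (by linarith : 0 ≤ 1 / 10 - e)]
        have h8 := mul_le_mul_of_nonneg_right h6 (by positivity : 0 ≤ α * Real.log k)
        calc (1 - 2 * e) * (m * ((1 + e) * d + 1)) =
            (1 + e) * ((1 - 2 * e) * m * d) + (1 - 2 * e) * m := by ring
          _ ≤ (1 + e) * ((1 + e) ^ 2 * α * Real.log k) + (1 - 2 * e) * (e * α * Real.log k) :=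
            add_le_add h3 h4
          _ = ((1 + e) ^ 3 + (1 - 2 * e) * e) * (α * Real.log k) := by ring
          _ ≤ (1 - 2 * e) * (1 + δ) * (α * Real.log k) := h8
          _ = (1 - 2 * e) * ((1 + δ) * α * Real.log k) := by ring
      exact h1.trans (le_of_mul_le_mul_left h2 h12)
    rw [← hmd]
    have h9 : (⌈(1 + e) * d⌉₊ : ℝ) ≤ (1 + δ) * α * Real.log k / m := by
      rw [le_div_iff₀ hm]
      linarith
    have h10 : (s : ℝ) * (q - 1) ≤ α * k * (1 - 1 / q) := by
      have h11 : (s : ℝ) * (q - 1) = (q * s) * (1 - 1 / q) := by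
        field_simp
      rw [h11]
      refine mul_le_mul_of_nonneg_right hqs ?_
      rw [sub_nonneg, div_le_one hq0]
      linarith
    calc (⌈(1 + e) * d⌉₊ : ℝ) * (s * (q - 1)) ≤
        ((1 + δ) * α * Real.log k / m) * (α * k * (1 - 1 / q)) := by
          refine mul_le_mul h9 h10 ?_ (by positivity)
          exact mul_nonneg hs0.le (by linarith)
      _ = (1 + δ) * (α ^ 2 * (1 - 1 / q) / m) * (k * Real.log k) := by ring

end Pool.Agent.H120.CF
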